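import Mathlib

/-!
# MP_c016d9_an: the falling factorials of `k(k+1)` are Legendre multiplier sequences

Write `L(a,b) f = (X² - 1) f'' + 2 a X f' + b f`, so that `D = L(1,0)` has the Legendre polynomials as
eigenvectors, `D P_k = k(k+1) P_k`. From `∂ L(a,b) = L(a+1,b+2a) ∂` one gets
`∏_{j<μ} (D - j(j+1)) = ∂^μ (X²-1)^μ ∂^μ` and `∂^μ (D - t) = L(μ+1, μ(μ+1) - t) ∂^μ`. The operators
`L(K,c)`, `0 < c ≤ K²`, preserve real-rootedness; this follows from two applications of Laguerre's theorem
on polar derivatives, the two poles being chosen as the roots of a quadratic equation.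
-/

set_option autoImplicit false

namespace Pool.Agent.Results.MP_c016d9_an.FallingFactorials

open Polynomial

/-- `P` is a family of Legendre polynomials, with an arbitrary normalisation: `P k` is a nonzero
polynomial solution of `(1 - x²) y'' - 2 x y' + k (k+1) y = 0`. -/
def IsLegendreFamily (P : ℕ → ℝ[X]) : Prop :=
  ∀ k : ℕ, P k ≠ 0 ∧
    (1 - X ^ 2) * derivative (derivative (P k)) - 2 * X * derivative (P k)
      + C ((k : ℝ) * ((k : ℝ) + 1)) * P k = 0

/-- All the complex zeros of the real polynomial `p` are real. (The zero polynomial does not have this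
property.) -/
def OnlyRealZeros (p : ℝ[X]) : Prop := ∀ z : ℂ, aeval z p = 0 → z.im = 0

/-- The real sequence `γ` is a Legendre multiplier sequence: the operator `Γ[P_k] = γ_k P_k` maps every
polynomial with only real zeros to the zero polynomial or to a polynomial with only real zeros. -/
def IsLegendreMultiplierSequence (γ : ℕ → ℝ) : Prop :=
  ∀ P : ℕ → ℝ[X], IsLegendreFamily P →
    ∀ Γ : ℝ[X] →ₗ[ℝ] ℝ[X], (∀ k, Γ (P k) = γ k • P k) →
      ∀ p : ℝ[X], OnlyRealZeros p → Γ p = 0 ∨ OnlyRealZeros (Γ p)

/-! ### Laguerre's theorem -/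

lemma laguerre_term {z α r : ℂ} (hz : 0 < z.im) (hα : 0 < α.im) (hr : r.im ≤ 0) :
    0 < (((α - r) / (z - r)) * (z - starRingEnd ℂ α)).im := by
  have hzr : z - r ≠ 0 := by
    intro h
    have := congrArg Complex.im h
    simp only [Complex.sub_im, Complex.zero_im] at this
    linarith
  set u := (α - r) / (z - r) with hu
  have h1 : u * (z - r) = α - r := by rw [hu]; field_simp
  have hre := congrArg Complex.re h1
  have him := congrArg Complex.im h1
  simp only [Complex.mul_re, Complex.mul_im, Complex.sub_re, Complex.sub_im] at hre him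
  have key : (u * (z - starRingEnd ℂ α)).im
      = α.im + (u.re ^ 2 + u.im ^ 2) * z.im + (-r.im) * ((1 - u.re) ^ 2 + u.im ^ 2) := by
    simp only [Complex.mul_im, Complex.sub_re, Complex.sub_im, Complex.conj_re, Complex.conj_im]
    linear_combination (1 - u.re) * him + u.im * hre
  rw [key]
  have h2 : 0 ≤ (u.re ^ 2 + u.im ^ 2) * z.im := by positivity
  have h3 : 0 ≤ (-r.im) * ((1 - u.re) ^ 2 + u.im ^ 2) := mul_nonneg (by linarith) (by positivity)
  linarith

lemma multiset_sum_pos (s : Multiset ℝ) (h : ∀ x ∈ s, 0 < x) :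
    0 ≤ s.sum ∧ (s ≠ 0 → 0 < s.sum) := by
  induction s using Multiset.induction_on with
  | empty => simp
  | cons a s ih =>
    have h1 := ih fun x hx => h x (Multiset.mem_cons_of_mem hx)
    have h2 := h a (Multiset.mem_cons_self a s)
    rw [Multiset.sum_cons]
    exact ⟨by linarith [h1.1], fun _ => by linarith [h1.1]⟩

/-- Laguerre's theorem for the closed lower half-plane. -/
lemma laguerre {p : ℂ[X]} {M : ℕ} (hM : 1 ≤ M) (hd : p.natDegree ≤ M)
    (hr : ∀ r : ℂ, p.eval r = 0 → r.im ≤ 0) {z α : ℂ} (hz : 0 < z.im) (hα : 0 < α.im) :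
    (M : ℂ) * p.eval z + (α - z) * p.derivative.eval z ≠ 0 := by
  have hpz : p.eval z ≠ 0 := fun h => absurd (hr z h) (not_le.mpr hz)
  intro h
  have hs := (IsAlgClosed.splits p).eval_derivative_div_eval_of_ne_zero hpz
  have hcard : p.roots.card = p.natDegree := (IsAlgClosed.splits p).natDegree_eq_card_roots.symm
  have hroot : ∀ w ∈ p.roots, w.im ≤ 0 := fun w hw => hr w (isRoot_of_mem_roots hw)
  have h2 : (M : ℂ) + (α - z) * (p.roots.map fun w => 1 / (z - w)).sum = 0 := by
    rw [← hs]
    field_simp
    linear_combination h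
  have h3 : (p.roots.map fun w => (α - w) / (z - w)).sum
      = (p.natDegree : ℂ) + (α - z) * (p.roots.map fun w => 1 / (z - w)).sum := by
    rw [← hcard, ← Multiset.sum_map_mul_left]
    have h4 : ((p.roots.card : ℕ) : ℂ) = (p.roots.map (fun _ => (1 : ℂ))).sum := by simp
    rw [h4, ← Multiset.sum_map_add]
    refine congrArg _ (Multiset.map_congr rfl fun w hw => ?_)
    have h5 : z - w ≠ 0 := by
      intro h5
      have := congrArg Complex.im h5
      simp only [Complex.sub_im, Complex.zero_im] at this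
      have := hroot w hw
      linarith
    field_simp
    ring
  obtain ⟨m, hm⟩ := Nat.exists_eq_add_of_le hd
  have h4 : (m : ℂ) + (p.roots.map fun w => (α - w) / (z - w)).sum = 0 := by
    rw [h3, ← h2, hm]
    push_cast
    ring
  set ℓ : ℂ →+ ℝ := Complex.imAddGroupHom.comp (AddMonoidHom.mulRight (z - starRingEnd ℂ α)) with hℓ
  have hℓa : ∀ u : ℂ, ℓ u = (u * (z - starRingEnd ℂ α)).im := fun u => rfl
  have h5 := congrArg ℓ h4
  rw [map_add, map_zero, map_multiset_sum, Multiset.map_map] at h5
  have h6 : ℓ (m : ℂ) = (m : ℝ) * (z.im + α.im) := by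
    rw [hℓa]
    simp [Complex.mul_im]
  rw [h6] at h5
  obtain ⟨h7, h8⟩ := multiset_sum_pos (p.roots.map (⇑ℓ ∘ fun w => (α - w) / (z - w))) (by
    intro x hx
    obtain ⟨w, hw, rfl⟩ := Multiset.mem_map.1 hx
    exact laguerre_term hz hα (hroot w hw))
  rcases Nat.eq_zero_or_pos m with hm0 | hm0
  · have h9 : 0 < ((p.roots.map (⇑ℓ ∘ fun w => (α - w) / (z - w)))).sum := by
      apply h8
      intro h10
      have h11 := congrArg Multiset.card h10
      rw [Multiset.card_map, hcard, Multiset.card_zero] at h11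
      omega
    rw [hm0] at h5
    simp only [Nat.cast_zero, zero_mul, zero_add] at h5
    linarith
  · have h9 : 0 < (m : ℝ) * (z.im + α.im) := by
      have : (0 : ℝ) < m := by exact_mod_cast hm0
      positivity
    linarith

/-- The location of the roots of the quadratic equation which gives the two poles. -/
lemma im_pos_of_quadratic {P Q E S : ℝ} (hQ : 0 < Q) (hE : 0 ≤ E) (hEQ : E ≤ Q ^ 2)
    (hS : 0 ≤ S) (hP : 0 < P) {z w : ℂ} (hz : 0 < z.im)
    (h : ((P : ℂ) * z - Q * w) ^ 2 = E * w ^ 2 + S) : 0 < w.im := by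
  by_contra hw
  push Not at hw
  set V : ℂ := (P : ℂ) * z - Q * w with hV
  have hVim : V.im = P * z.im - Q * w.im := by
    rw [hV]
    simp [Complex.mul_im]
  have hy : Q * (-w.im) < V.im := by
    rw [hVim]
    nlinarith [mul_pos hP hz]
  have hq0 : 0 ≤ Q * (-w.im) := mul_nonneg hQ.le (by linarith)
  have hre := congrArg Complex.re h
  have him := congrArg Complex.im h
  simp only [sq, Complex.mul_re, Complex.mul_im, Complex.add_re, Complex.add_im, Complex.ofReal_re,
    Complex.ofReal_im, zero_mul, sub_zero, add_zero] at hre him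
  set x := V.re
  set y := V.im
  set p := w.re
  set q := w.im
  have hypos : 0 < y := lt_of_le_of_lt hq0 hy
  have hxy : x * y = E * (p * q) := by linarith
  have hy2 : Q ^ 2 * q ^ 2 < y ^ 2 := by nlinarith
  have hEq : E * q ^ 2 ≤ Q ^ 2 * q ^ 2 := mul_le_mul_of_nonneg_right hEQ (sq_nonneg q)
  have h1 : (x ^ 2 - E * p ^ 2) * y ^ 2 = (E * p ^ 2) * (E * q ^ 2 - y ^ 2) := by
    have : x ^ 2 * y ^ 2 = (E * (p * q)) ^ 2 := by rw [← hxy]; ring
    linear_combination this
  have h2 : (x ^ 2 - E * p ^ 2) * y ^ 2 ≤ 0 := by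
    rw [h1]
    exact mul_nonpos_of_nonneg_of_nonpos (by positivity) (by linarith)
  have h3 : x ^ 2 - E * p ^ 2 ≤ 0 := by
    by_contra h4
    push Not at h4
    have := mul_pos h4 (pow_pos hypos 2)
    linarith
  nlinarith

/-- `L(K,c) f` has no zero in the upper half-plane if `f` has none and `0 < c ≤ K²`. -/
lemma key {f : ℂ[X]} (hr : ∀ r, f.eval r = 0 → r.im ≤ 0) {K c : ℝ} (hK : 0 < K)
    (hc : 0 < c) (hcK : c ≤ K ^ 2) {z : ℂ} (hz : 0 < z.im) :
    (z ^ 2 - 1) * f.derivative.derivative.eval z + 2 * K * z * f.derivative.eval z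
      + c * f.eval z ≠ 0 := by
  have hc' : (c : ℂ) ≠ 0 := by exact_mod_cast hc.ne'
  rcases Nat.lt_or_ge f.natDegree 2 with hN | hN
  · -- degree at most one
    have h0 : f.derivative.derivative = 0 := by
      apply derivative_of_natDegree_zero
      have := natDegree_derivative_le f
      omega
    rw [h0]
    intro h
    have h1 := laguerre (p := f) (M := 1) le_rfl (by omega) hr hz
      (α := z + ((2 * K / c : ℝ) : ℂ) * z) (by
        simp only [Complex.add_im, Complex.im_ofReal_mul]
        positivity)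
    apply h1
    have h2 : (c : ℂ) * ((1 : ℕ) * f.eval z
        + (z + ((2 * K / c : ℝ) : ℂ) * z - z) * f.derivative.eval z) = 0 := by
      rw [← h]
      push_cast
      simp only [eval_zero, mul_zero, zero_add]
      field_simp
      ring
    exact (mul_eq_zero.1 h2).resolve_left hc'
  · -- degree at least two
    set N := f.natDegree with hNdef
    have hNR : (2 : ℝ) ≤ N := by exact_mod_cast hN
    -- the two poles
    obtain ⟨s, hs⟩ := IsAlgClosed.exists_pow_nat_eq
      (((K : ℂ) * N * z) ^ 2 - c * ((N : ℂ) * (N - 1) * (z ^ 2 - 1))) (n := 2) (by norm_num)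
    have hpole : ∀ t : ℂ, t ^ 2 = s ^ 2 → 0 < (z + ((K : ℂ) * N * z + t) / c).im := by
      intro t ht
      refine im_pos_of_quadratic (P := c + 2 * K * N + N * (N - 1)) (Q := c + K * N)
        (E := (c + K * N) ^ 2 - (c + 2 * K * N + N * (N - 1)) * c)
        (S := (c + 2 * K * N + N * (N - 1)) * (N * (N - 1))) (by positivity) ?_ ?_ ?_ ?_ hz ?_
      · have h1 : (c + K * N) ^ 2 - (c + 2 * K * N + N * (N - 1)) * c
            = N * (N * (K ^ 2 - c) + c) := by ring
        rw [h1]
        have : 0 ≤ (N : ℝ) * (K ^ 2 - c) := mul_nonneg (by linarith) (by linarith)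
        exact mul_nonneg (by linarith) (by linarith)
      · have : 0 ≤ (c + 2 * K * N + N * (N - 1)) * c := by
          have : 0 ≤ (N : ℝ) * (N - 1) := mul_nonneg (by linarith) (by linarith)
          positivity
        linarith
      · have : 0 ≤ (N : ℝ) * (N - 1) := mul_nonneg (by linarith) (by linarith)
        positivity
      · have : 0 ≤ (N : ℝ) * (N - 1) := mul_nonneg (by linarith) (by linarith)
        positivity
      · rw [hs] at ht
        push_cast
        field_simp
        linear_combination ((c : ℂ) * (c + 2 * K * N + N * (N - 1))) * ht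
    set a : ℂ := ((K : ℂ) * N * z + s) / c with ha
    set b : ℂ := ((K : ℂ) * N * z + -s) / c with hb
    have haim : 0 < (z + a).im := hpole s rfl
    have hbim : 0 < (z + b).im := hpole (-s) (by ring)
    have hab1 : (c : ℂ) * (a + b) = 2 * K * N * z := by
      rw [ha, hb]
      field_simp
      ring
    have hab2 : (c : ℂ) * (a * b) = N * (N - 1) * (z ^ 2 - 1) := by
      have h1 : (c : ℂ) * (c * (a * b)) = c * (N * (N - 1) * (z ^ 2 - 1)) := by
        rw [ha, hb]
        field_simp
        linear_combination (-1 : ℂ) * hs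
      exact mul_left_cancel₀ hc' h1
    -- the polar derivative with respect to the pole `z + b`
    set g : ℂ[X] := C (N : ℂ) * f + (C (z + b) - X) * f.derivative with hg
    have hgeval : ∀ w : ℂ, g.eval w = (N : ℂ) * f.eval w + ((z + b) - w) * f.derivative.eval w := by
      intro w
      rw [hg]
      simp
    have hgroot : ∀ w : ℂ, g.eval w = 0 → w.im ≤ 0 := by
      intro w hw
      by_contra hwim
      push Not at hwim
      rw [hgeval] at hw
      exact laguerre (by omega) le_rfl hr hwim hbim hw
    have hgdeg : g.natDegree ≤ N - 1 := by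
      rw [natDegree_le_iff_coeff_eq_zero]
      intro n hn
      have h1 : g.coeff n = (N : ℂ) * f.coeff n + (z + b) * f.derivative.coeff n
          - (X * f.derivative).coeff n := by
        rw [hg]
        simp only [coeff_add, sub_mul, coeff_sub, coeff_C_mul]
        ring
      rw [h1]
      obtain ⟨m, rfl⟩ : ∃ m, n = m + 1 := ⟨n - 1, by omega⟩
      rw [coeff_X_mul, coeff_derivative, coeff_derivative]
      have h2 : f.coeff (m + 1 + 1) = 0 := coeff_eq_zero_of_natDegree_lt (by omega)
      rw [h2]
      rcases Nat.lt_or_ge N (m + 1) with h3 | h3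
      · have h4 : f.coeff (m + 1) = 0 := coeff_eq_zero_of_natDegree_lt h3
        rw [h4]
        ring
      · have h4 : N = m + 1 := by omega
        rw [h4]
        push_cast
        ring
    have hgder : g.derivative = C ((N : ℂ) - 1) * f.derivative
        + (C (z + b) - X) * f.derivative.derivative := by
      rw [hg]
      simp only [derivative_add, derivative_mul, derivative_C, derivative_X, map_sub, map_one]
      ring
    have h1 := laguerre (p := g) (M := N - 1) (by omega) hgdeg hgroot hz haim
    intro h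
    apply h1
    rw [hgder, hgeval, Nat.cast_sub (by omega : 1 ≤ N), Nat.cast_one]
    simp only [eval_add, eval_mul, eval_C, eval_sub, eval_X]
    have h2 : (c : ℂ) * (((N : ℂ) - 1) * ((N : ℂ) * eval z f + (z + b - z) * eval z (derivative f)) +
        (z + a - z) * (((N : ℂ) - 1) * eval z (derivative f)
          + (z + b - z) * eval z (derivative (derivative f)))) = 0 := by
      linear_combination (N : ℂ) * (N - 1) * h + (N - 1) * eval z (derivative f) * hab1
        + eval z (derivative (derivative f)) * hab2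
    exact (mul_eq_zero.1 h2).resolve_left hc'

/-! ### Real-rooted real polynomials -/

/-- `p` is zero or all its zeros are real -/
def RR (p : ℝ[X]) : Prop := p = 0 ∨ OnlyRealZeros p

/-- The operator `L(a,b)`. -/
noncomputable def Lop (a b : ℝ) (f : ℝ[X]) : ℝ[X] :=
  (X ^ 2 - 1) * derivative (derivative f) + C (2 * a) * X * derivative f + C b * f

lemma aeval_conj (p : ℝ[X]) (z : ℂ) : aeval (starRingEnd ℂ z) p = starRingEnd ℂ (aeval z p) := by
  rw [Polynomial.aeval_conj]

lemma onlyRealZeros_of_upper {p : ℝ[X]} (h : ∀ z : ℂ, 0 < z.im → aeval z p ≠ 0) :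
    OnlyRealZeros p := by
  intro z hz
  rcases lt_trichotomy z.im 0 with h1 | h1 | h1
  · exfalso
    refine h (starRingEnd ℂ z) (by simpa using h1) ?_
    rw [aeval_conj, hz, map_zero]
  · exact h1
  · exact absurd hz (h z h1)

lemma eval_map_aeval (p : ℝ[X]) (z : ℂ) : (p.map (algebraMap ℝ ℂ)).eval z = aeval z p := by
  rw [eval_map_algebraMap]

lemma rr_Lop {f : ℝ[X]} (hf : RR f) {K c : ℝ} (hK : 0 < K) (hc : 0 < c) (hcK : c ≤ K ^ 2) :
    RR (Lop K c f) := by
  rcases hf with rfl | hf
  · left
    simp [Lop]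
  right
  apply onlyRealZeros_of_upper
  intro z hz
  have h1 := key (f := f.map (algebraMap ℝ ℂ)) (by
    intro r hr
    rw [eval_map_aeval] at hr
    exact (hf r hr).le) hK hc hcK hz
  rw [derivative_map, derivative_map, eval_map_aeval, eval_map_aeval, eval_map_aeval] at h1
  intro h2
  apply h1
  rw [← h2]
  simp [Lop]

lemma rr_derivative {f : ℝ[X]} (hf : RR f) : RR (derivative f) := by
  rcases hf with rfl | hf
  · left
    simp
  by_cases h0 : derivative f = 0
  · exact Or.inl h0
  right
  intro z hz
  set F := f.map (algebraMap ℝ ℂ) with hF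
  have hF' : derivative F ≠ 0 := by
    rw [hF, derivative_map]
    exact (Polynomial.map_ne_zero_iff (algebraMap ℝ ℂ).injective).2 h0
  have hdeg : 0 < F.degree := by
    by_contra h
    push Not at h
    apply hF'
    rw [eq_C_of_degree_le_zero h, derivative_C]
  have h1 := rootSet_derivative_subset_convexHull_rootSet hdeg (a := z) (by
    rw [mem_rootSet]
    refine ⟨hF', ?_⟩
    rw [hF, derivative_map, coe_aeval_eq_eval, eval_map_aeval, hz])
  have h2 : convexHull ℝ (F.rootSet ℂ) ⊆ {w : ℂ | w.im = 0} := by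
    apply convexHull_min
    · intro w hw
      rw [mem_rootSet, coe_aeval_eq_eval, hF, eval_map_aeval] at hw
      exact hf w hw.2
    · intro u hu v hv a b _ _ _
      simp only [Set.mem_ofPred_eq] at hu hv ⊢
      simp [hu, hv]
  exact h2 h1

lemma rr_iterate_derivative {f : ℝ[X]} (hf : RR f) (n : ℕ) : RR (derivative^[n] f) := by
  induction n with
  | zero => exact hf
  | succ n ih =>
    rw [Function.iterate_succ_apply']
    exact rr_derivative ih

lemma rr_mul {f g : ℝ[X]} (hf : RR f) (hg : RR g) : RR (f * g) := by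
  rcases hf with rfl | hf
  · left; simp
  rcases hg with rfl | hg
  · left; simp
  right
  intro z hz
  rw [map_mul] at hz
  rcases mul_eq_zero.1 hz with h | h
  · exact hf z h
  · exact hg z h

lemma rr_weight (m : ℕ) : RR ((X ^ 2 - 1) ^ m : ℝ[X]) := by
  right
  intro z hz
  rw [map_pow] at hz
  have h2 : aeval z (X ^ 2 - 1 : ℝ[X]) = 0 := by
    by_contra h
    exact absurd hz (pow_ne_zero m h)
  have h3 : (z - 1) * (z + 1) = 0 := by
    simp only [map_sub, map_pow, aeval_X, map_one] at h2
    linear_combination h2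
  rcases mul_eq_zero.1 h3 with h | h
  · rw [sub_eq_zero.1 h]; simp
  · rw [eq_neg_of_add_eq_zero_left h]; simp

/-! ### The operator identities -/

lemma derivative_Lop (a b : ℝ) (f : ℝ[X]) :
    derivative (Lop a b f) = Lop (a + 1) (b + 2 * a) (derivative f) := by
  simp only [Lop, derivative_add, derivative_mul, derivative_sub, derivative_X_pow, derivative_one,
    derivative_C, derivative_X, C_add, C_mul, C_1, map_ofNat, derivative_ofNat]
  push_cast
  simp only [map_ofNat]
  ring

lemma iterate_derivative_Lop' (a b : ℝ) (f : ℝ[X]) (m : ℕ) :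
    derivative^[m] (Lop a b f) = Lop (a + m) (b + 2 * a * m + m * (m - 1)) (derivative^[m] f) := by
  induction m with
  | zero => simp
  | succ m ih =>
    rw [Function.iterate_succ_apply', Function.iterate_succ_apply', ih, derivative_Lop]
    congr 1
    · push_cast; ring
    · push_cast; ring

lemma iterate_derivative_Lop (b : ℝ) (f : ℝ[X]) (m : ℕ) :
    derivative^[m] (Lop 1 b f) = Lop (m + 1) (b + m * (m + 1)) (derivative^[m] f) := by
  rw [iterate_derivative_Lop']
  congr 1 <;> ring

lemma derivative_weight (m : ℕ) (g : ℝ[X]) :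
    derivative ((X ^ 2 - 1) ^ (m + 1) * derivative g) = (X ^ 2 - 1) ^ m * Lop (m + 1) 0 g := by
  simp only [Lop, derivative_mul, derivative_pow, derivative_sub, derivative_one,
    C_mul, C_0, map_ofNat, C_add, C_1]
  push_cast
  simp only [map_ofNat, C_add, C_1]
  simp
  ring

lemma rr_Lop_zero {f : ℝ[X]} (hf : RR f) (m : ℕ) : RR (Lop (m + 1) 0 f) := by
  by_cases h0 : Lop (m + 1) 0 f = 0
  · exact Or.inl h0
  right
  have h1 : RR ((X ^ 2 - 1) ^ m * Lop (m + 1) 0 f) := by
    rw [← derivative_weight]
    exact rr_derivative (rr_mul (rr_weight _) (rr_derivative hf))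
  rcases h1 with h1 | h1
  · exfalso
    rcases mul_eq_zero.1 h1 with h2 | h2
    · have h3 : (X ^ 2 - 1 : ℝ[X]) ≠ 0 := by
        intro h4
        have := congrArg (eval 0) h4
        simp at this
      exact absurd h2 (pow_ne_zero m h3)
    · exact h0 h2
  · intro z hz
    apply h1
    rw [map_mul, hz, mul_zero]

/-- `D = L(1,0)` as a linear map -/
noncomputable def D : ℝ[X] →ₗ[ℝ] ℝ[X] where
  toFun := Lop 1 0
  map_add' f g := by simp only [Lop, map_add]; ring
  map_smul' r f := by
    simp only [Lop, RingHom.id_apply, smul_eq_C_mul, derivative_C_mul]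
    ring

lemma D_sub (t : ℝ) (f : ℝ[X]) : aeval D (X - C t) f = Lop 1 (-t) f := by
  simp only [map_sub, aeval_X, aeval_C, LinearMap.sub_apply, Module.algebraMap_end_apply]
  simp only [D, Lop, LinearMap.coe_mk, AddHom.coe_mk, smul_eq_C_mul, C_neg, C_0]
  ring

lemma A_eq (m : ℕ) (g : ℝ[X]) :
    aeval D (∏ j ∈ Finset.range m, (X - C ((j : ℝ) * ((j : ℝ) + 1)))) g
      = derivative^[m] ((X ^ 2 - 1) ^ m * derivative^[m] g) := by
  induction m generalizing g with
  | zero => simp
  | succ m ih =>
    rw [Finset.prod_range_succ, map_mul, Module.End.mul_apply, D_sub, ih, iterate_derivative_Lop]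
    rw [Function.iterate_succ_apply, Function.iterate_succ_apply' derivative m g, derivative_weight]
    congr 3
    ring

lemma rr_factors (m : ℕ) (s : Multiset ℝ)
    (hs : ∀ t ∈ s, -((m : ℝ) + 1) ≤ t ∧ t ≤ m * (m + 1)) (f : ℝ[X])
    (hf : RR f) : RR (derivative^[m] (aeval D (s.map fun t => X - C t).prod f)) := by
  induction s using Multiset.induction_on with
  | empty => simpa using rr_iterate_derivative hf m
  | cons t s ih =>
    rw [Multiset.map_cons, Multiset.prod_cons, map_mul, Module.End.mul_apply, D_sub,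
      iterate_derivative_Lop]
    obtain ⟨h1, h2⟩ := hs t (Multiset.mem_cons_self t s)
    have h3 := ih fun u hu => hs u (Multiset.mem_cons_of_mem hu)
    rcases eq_or_lt_of_le h2 with h4 | h4
    · rw [h4, neg_add_cancel]
      exact rr_Lop_zero h3 m
    · refine rr_Lop h3 (by positivity) (by linarith) ?_
      nlinarith

lemma rr_main (m : ℕ) (s : Multiset ℝ)
    (hs : ∀ t ∈ s, -((m : ℝ) + 1) ≤ t ∧ t ≤ m * (m + 1)) (f : ℝ[X]) (hf : RR f) :
    RR (aeval D ((∏ j ∈ Finset.range m, (X - C ((j : ℝ) * ((j : ℝ) + 1))))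
      * (s.map fun t => X - C t).prod) f) := by
  rw [map_mul, Module.End.mul_apply, A_eq]
  exact rr_iterate_derivative (rr_mul (rr_weight m) (rr_factors m s hs f hf)) m

/-! ### Legendre families -/

lemma D_legendre {P : ℕ → ℝ[X]} (hP : IsLegendreFamily P) (k : ℕ) :
    D (P k) = ((k : ℝ) * ((k : ℝ) + 1)) • P k := by
  have h := (hP k).2
  simp only [D, Lop, LinearMap.coe_mk, AddHom.coe_mk, smul_eq_C_mul, mul_one, C_0, zero_mul, add_zero,
    map_ofNat]
  linear_combination (-1 : ℝ[X]) * h

lemma aeval_D_legendre {P : ℕ → ℝ[X]} (hP : IsLegendreFamily P) (q : ℝ[X]) (k : ℕ) :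
    aeval D q (P k) = (q.eval ((k : ℝ) * ((k : ℝ) + 1))) • P k := by
  induction q using Polynomial.induction_on' with
  | add p q hp hq => rw [map_add, LinearMap.add_apply, hp, hq, eval_add, add_smul]
  | monomial n a =>
    rw [aeval_monomial, eval_monomial, Module.End.mul_apply, Module.algebraMap_end_apply, mul_smul]
    congr 1
    induction n with
    | zero => simp
    | succ n ih =>
      rw [pow_succ, Module.End.mul_apply, D_legendre hP, map_smul, ih, smul_smul, pow_succ]
      congr 1
      ring

lemma natDegree_legendre {P : ℕ → ℝ[X]} (hP : IsLegendreFamily P) (k : ℕ) :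
    (P k).natDegree = k := by
  obtain ⟨h0, h⟩ := hP k
  set p := P k
  have hd : p.coeff p.natDegree ≠ 0 := by
    rw [coeff_natDegree]
    exact leadingCoeff_ne_zero.2 h0
  have hc := congrArg (fun q => coeff q p.natDegree) h
  have h3 : p.coeff p.natDegree *
      ((k : ℝ) * (k + 1) - (p.natDegree : ℝ) * (p.natDegree + 1)) = 0 := by
    have e1 : p.coeff (p.natDegree + 1) = 0 := coeff_eq_zero_of_natDegree_lt (by omega)
    have e2 : p.coeff (p.natDegree + 1 + 1) = 0 := coeff_eq_zero_of_natDegree_lt (by omega)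
    rw [show (1 - X ^ 2) * derivative (derivative p) - 2 * X * derivative p
      + C ((k : ℝ) * ((k : ℝ) + 1)) * p = derivative (derivative p)
        - X * (X * derivative (derivative p)) - C 2 * (X * derivative p)
      + C ((k : ℝ) * ((k : ℝ) + 1)) * p by simp only [map_ofNat]; ring] at hc
    rcases hdeg : p.natDegree with _ | _ | d
    · rw [hdeg] at hc e1 e2
      simp only [coeff_add, coeff_sub, coeff_C_mul, coeff_derivative, coeff_X_mul_zero, coeff_zero,
        zero_add] at hc
      simp only [zero_add] at e1 e2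
      rw [e2] at hc
      push_cast at hc ⊢
      linear_combination hc
    · rw [hdeg] at hc e1 e2
      simp only [coeff_add, coeff_sub, coeff_C_mul, coeff_derivative, coeff_X_mul_zero, coeff_X_mul,
        coeff_zero, zero_add] at hc
      simp only [zero_add] at e1 e2 ⊢
      rw [e2] at hc
      push_cast at hc ⊢
      linear_combination hc
    · rw [hdeg] at hc e1 e2
      simp only [coeff_add, coeff_sub, coeff_C_mul, coeff_derivative, coeff_X_mul, coeff_zero] at hc
      rw [e2] at hc
      push_cast at hc ⊢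
      linear_combination hc
  have h4 : (k : ℝ) * (k + 1) - (p.natDegree : ℝ) * (p.natDegree + 1) = 0 :=
    (mul_eq_zero.1 h3).resolve_left hd
  have h5 : ((k : ℝ) - p.natDegree) * ((k : ℝ) + p.natDegree + 1) = 0 := by linear_combination h4
  rcases mul_eq_zero.1 h5 with h6 | h6
  · have : (k : ℝ) = p.natDegree := by linarith
    exact_mod_cast this.symm
  · exfalso
    have : (0 : ℝ) < (k : ℝ) + p.natDegree + 1 := by positivity
    linarith

/-- a Legendre family as a polynomial sequence -/
noncomputable def seq {P : ℕ → ℝ[X]} (hP : IsLegendreFamily P) : Polynomial.Sequence ℝ where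
  elems' := P
  degree_eq' k := by rw [degree_eq_natDegree (hP k).1, natDegree_legendre hP k]

/-- a Legendre family as a basis of `ℝ[X]` -/
noncomputable def bas {P : ℕ → ℝ[X]} (hP : IsLegendreFamily P) : Module.Basis ℕ ℝ ℝ[X] :=
  (seq hP).basis fun i => isUnit_iff_ne_zero.2 (leadingCoeff_ne_zero.2 ((seq hP).ne_zero i))

lemma bas_apply {P : ℕ → ℝ[X]} (hP : IsLegendreFamily P) (k : ℕ) : bas hP k = P k := by
  unfold bas
  rw [Polynomial.Sequence.basis_eq_self]
  rfl

lemma exists_unique_op {P : ℕ → ℝ[X]} (hP : IsLegendreFamily P) (γ : ℕ → ℝ) :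
    ∃! Γ : ℝ[X] →ₗ[ℝ] ℝ[X], ∀ k, Γ (P k) = γ k • P k := by
  refine ⟨(bas hP).constr ℝ fun k => γ k • P k, fun k => ?_, fun Γ hΓ => ?_⟩
  · have h := (bas hP).constr_basis ℝ (fun k => γ k • P k) k
    rwa [bas_apply] at h
  · apply (bas hP).ext
    intro k
    rw [(bas hP).constr_basis, bas_apply, hΓ]

/-- Rodrigues' formula gives a Legendre family. -/
lemma rodrigues : IsLegendreFamily fun k => derivative^[k] ((X ^ 2 - 1) ^ k) := by
  intro k
  constructor
  · intro h
    have h1 := congrArg (fun q => coeff q k) h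
    simp only [coeff_iterate_derivative, coeff_zero] at h1
    have hmonic : ((X ^ 2 - 1 : ℝ[X]) ^ k).Monic := by
      apply Monic.pow
      have := monic_X_pow_sub_C (1 : ℝ) (n := 2) (by norm_num)
      simpa using this
    have hdeg : ((X ^ 2 - 1 : ℝ[X]) ^ k).natDegree = k + k := by
      rw [natDegree_pow]
      have := natDegree_X_pow_sub_C (n := 2) (r := (1 : ℝ))
      rw [C_1] at this
      rw [this]
      ring
    have h2 : ((X ^ 2 - 1 : ℝ[X]) ^ k).coeff (k + k) = 1 := by
      rw [← hdeg, coeff_natDegree]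
      exact hmonic
    rw [h2, nsmul_eq_mul, mul_one] at h1
    have h3 : (k + k).descFactorial k = 0 := by exact_mod_cast h1
    rw [Nat.descFactorial_eq_zero_iff_lt] at h3
    omega
  · set u : ℝ[X] := (X ^ 2 - 1) ^ k with hu
    have h1 : (X ^ 2 - 1) * derivative u = C (2 * (k : ℝ)) * X * u := by
      rw [hu]
      rcases k with _ | k
      · simp
      · simp only [derivative_pow, derivative_sub, derivative_one, derivative_X, Nat.add_sub_cancel,
          C_mul, map_natCast, map_ofNat]
        simp
        ring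
    have h2 := congrArg derivative h1
    simp only [derivative_mul, derivative_sub, derivative_X_pow, derivative_one, derivative_C,
      derivative_X] at h2
    have h3 : Lop (1 - k) (-2 * k) u = 0 := by
      simp only [Lop]
      push_cast at h2
      simp only [C_mul, C_sub, C_neg, C_1, map_ofNat, map_natCast] at h2 ⊢
      linear_combination h2
    have h4 := iterate_derivative_Lop' (1 - k) (-2 * k) u k
    rw [h3, iterate_derivative_zero] at h4
    have h5 : Lop 1 (-(k * (k + 1))) (derivative^[k] u) = 0 := by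
      rw [h4]
      congr 1 <;> ring
    simp only [Lop, C_neg, mul_one, map_ofNat] at h5
    show (1 - X ^ 2) * derivative (derivative (derivative^[k] u)) - 2 * X * derivative (derivative^[k] u)
      + C ((k : ℝ) * ((k : ℝ) + 1)) * derivative^[k] u = 0
    linear_combination (-1 : ℝ[X]) * h5

/-! ### The multiplier sequences -/

theorem general (m : ℕ) (s : Multiset ℝ)
    (hs : ∀ t ∈ s, -((m : ℝ) + 1) ≤ t ∧ t ≤ m * (m + 1)) :
    IsLegendreMultiplierSequence fun k =>
      (∏ j ∈ Finset.range m, ((k : ℝ) * ((k : ℝ) + 1) - (j : ℝ) * ((j : ℝ) + 1)))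
        * (s.map fun t => (k : ℝ) * ((k : ℝ) + 1) - t).prod := by
  intro P hP Γ hΓ p hp
  have h1 : Γ = aeval D ((∏ j ∈ Finset.range m, (X - C ((j : ℝ) * ((j : ℝ) + 1))))
      * (s.map fun t => X - C t).prod) := by
    apply (bas hP).ext
    intro k
    rw [bas_apply, hΓ, aeval_D_legendre hP]
    congr 1
    rw [eval_mul, eval_prod, eval_multiset_prod, Multiset.map_map]
    simp
  rw [h1]
  exact rr_main m s hs p (Or.inr hp)

theorem falling (n : ℕ) :
    IsLegendreMultiplierSequence fun k =>
      ∏ i ∈ Finset.range n, ((k : ℝ) * ((k : ℝ) + 1) - (i : ℝ)) := by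
  classical
  have hex : ∃ m : ℕ, n ≤ m * (m + 1) := ⟨n, by nlinarith⟩
  set m := Nat.find hex with hm
  have h1 : n ≤ m * (m + 1) := Nat.find_spec hex
  have h2 : ∀ j < m, j * (j + 1) < n := fun j hj => not_le.1 (Nat.find_min hex hj)
  set I : Finset ℕ := (Finset.range m).image fun j => j * (j + 1) with hI
  have hIn : I ⊆ Finset.range n := by
    intro i hi
    obtain ⟨j, hj, rfl⟩ := Finset.mem_image.1 hi
    exact Finset.mem_range.2 (h2 j (Finset.mem_range.1 hj))
  have h3 := general m ((Finset.range n \ I).val.map fun i : ℕ => (i : ℝ)) (by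
    intro t ht
    obtain ⟨i, hi, rfl⟩ := Multiset.mem_map.1 ht
    rw [Finset.mem_val] at hi
    have hi' : i < n := Finset.mem_range.1 (Finset.mem_sdiff.1 hi).1
    have h4 : (i : ℝ) ≤ (m : ℝ) * (m + 1) := by exact_mod_cast (hi'.le.trans h1)
    have h5 : (0 : ℝ) ≤ i := Nat.cast_nonneg i
    have h6 : (0 : ℝ) ≤ m := Nat.cast_nonneg m
    exact ⟨by linarith, h4⟩)
  convert h3 using 2 with k
  rw [← Finset.prod_sdiff hIn, mul_comm, Multiset.map_map]
  congr 1
  rw [hI, Finset.prod_image]
  · refine Finset.prod_congr rfl fun j _ => ?_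
    push_cast
    ring
  · intro a _ b _ hab
    have hab' : a * (a + 1) = b * (b + 1) := hab
    rcases Nat.lt_trichotomy a b with h | h | h
    · nlinarith
    · exact h
    · nlinarith

/-- **MP_c016d9_an.** (1) For every `n ≥ 1` the sequence `m_k (m_k - 1) ⋯ (m_k - n + 1)`, `m_k = k (k+1)`,
is a Legendre multiplier sequence. (2) More generally, for `m ≥ 0` and reals
`t_1, …, t_r ∈ [-(m+1), m (m+1)]` the sequence `∏_{j < m} (m_k - j (j+1)) · ∏_i (m_k - t_i)` is one.
(3), (4) The notions are not vacuous: Rodrigues' formula gives a family of Legendre polynomials, and for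
every such family and every real sequence `γ` there is exactly one linear operator with
`Γ[P_k] = γ_k P_k`. -/
theorem result :
    (∀ n : ℕ, 1 ≤ n → IsLegendreMultiplierSequence fun k =>
      ∏ i ∈ Finset.range n, ((k : ℝ) * ((k : ℝ) + 1) - (i : ℝ))) ∧
    (∀ (m : ℕ) (s : Multiset ℝ), (∀ t ∈ s, -((m : ℝ) + 1) ≤ t ∧ t ≤ m * (m + 1)) →
      IsLegendreMultiplierSequence fun k =>
        (∏ j ∈ Finset.range m, ((k : ℝ) * ((k : ℝ) + 1) - (j : ℝ) * ((j : ℝ) + 1)))
          * (s.map fun t => (k : ℝ) * ((k : ℝ) + 1) - t).prod) ∧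
    (IsLegendreFamily fun k => derivative^[k] ((X ^ 2 - 1) ^ k)) ∧
    (∀ P : ℕ → ℝ[X], IsLegendreFamily P → ∀ γ : ℕ → ℝ,
      ∃! Γ : ℝ[X] →ₗ[ℝ] ℝ[X], ∀ k, Γ (P k) = γ k • P k) :=
  ⟨fun n _ => falling n, general, rodrigues, fun _ hP γ => exists_unique_op hP γ⟩

end Pool.Agent.Results.MP_c016d9_an.FallingFactorials
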